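import Pool.Agent.LDM.UpDim

set_option autoImplicit false

universe u

namespace Pool.Agent.Results.MP_fad14a_al.IndexGrowthBound

open LDM

/-- Local polynomial index growth of the soluble quotients bounds the dimension of a finitely
generated group. -/
theorem result {Γ : Type u} [Group Γ] [Group.FG Γ] (s : ℝ) (hs : 0 ≤ s)
    (h : ∀ N₀ : Subgroup Γ, NS N₀ → ∃ C : ℝ, ∀ A : Subgroup Γ, NS A → A ≤ N₀ →
      (∃ n : ℕ, (derivedSeries N₀ n).map N₀.subtype ≤ A) →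
      ∀ e : ℕ, 0 < e → (∀ x ∈ N₀, x ^ e ∈ A) → (A.relIndex N₀ : ℝ) ≤ C * (e : ℝ) ^ s) :
    Dim Γ ≤ (⌊s⌋₊ : ℕ∞) :=
  dim_le s hs h

end Pool.Agent.Results.MP_fad14a_al.IndexGrowthBound
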