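import Pool.Agent.LDM.Main

set_option autoImplicit false

universe u

namespace Pool.Agent.Results.MP_fad14a_al.ModPCommensurable

open LDM

/-- The mod `p` dimension of a finitely generated group is a commensurability invariant. -/
theorem result {Γ₁ Γ₂ : Type u} [Group Γ₁] [Group.FG Γ₁] [Group Γ₂] [Group.FG Γ₂]
    (p : ℕ) [Fact p.Prime] (H₁ : Subgroup Γ₁) (H₂ : Subgroup Γ₂)
    (h₁ : H₁.FiniteIndex) (h₂ : H₂.FiniteIndex) (e : H₁ ≃* H₂) :
    DimP p Γ₁ = DimP p Γ₂ := by
  have g1 : Group.FG H₁ := (Group.fg_iff_subgroup_fg H₁).2 (fr_finiteIndex p H₁ h₁).1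
  have g2 : Group.FG H₂ := (Group.fg_iff_subgroup_fg H₂).2 (fr_finiteIndex p H₂ h₂).1
  have key : ∀ {A B : Type u} [Group A] [Group.FG A] [Group B] [Group.FG B] (f : A ≃* B) (r : ℕ),
      DimP p A ≤ r → DimP p B ≤ r := by
    intro A B _ _ _ _ f r h
    rw [dimP_iff] at h ⊢
    intro C hC
    have hD : (C.map (f.symm : B →* A)).FiniteIndex := by
      refine ⟨?_⟩
      rw [Subgroup.index_map_of_bijective f.symm.bijective]
      exact hC.index_ne_zero
    exact pgrowth_iso p _ (f.symm.subgroupMap C).symm (h _ hD)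
  have hH : DimP p H₁ = DimP p H₂ := by
    apply le_antisymm
    · cases hx : DimP p H₂ with
      | top => exact le_top
      | coe n => exact key e.symm n (le_of_eq hx)
    · cases hx : DimP p H₁ with
      | top => exact le_top
      | coe n => exact key e n (le_of_eq hx)
  rw [← dimP_comm p H₁ h₁, ← dimP_comm p H₂ h₂, hH]

end Pool.Agent.Results.MP_fad14a_al.ModPCommensurable
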