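import Pool.Agent.LDM.Main

set_option autoImplicit false

universe u

namespace Pool.Agent.Results.MP_fad14a_al.ModPDimension

open LDM

/-- For a finitely generated group and a prime `p`, the lower limit of `dim H_1(A; F_p)` over the
normal subgroups `A` of finite index is the supremum of the index growth exponents of the finite
`p`-quotients of the subgroups of finite index. -/
theorem result {Γ : Type u} [Group Γ] [Group.FG Γ] (p : ℕ) [Fact p.Prime] :
    DimP p Γ ≤ Dim Γ ∧
    (∀ r : ℕ, DimP p Γ ≤ r ↔ ∀ B : Subgroup Γ, B.FiniteIndex → PGrowth p B (r : ℝ)) ∧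
    (∀ s : ℝ, 0 ≤ s → (∀ B : Subgroup Γ, B.FiniteIndex → PGrowth p B s) →
      DimP p Γ ≤ (⌊s⌋₊ : ℕ∞)) := by
  refine ⟨dimP_le_dim p, dimP_iff p, fun s hs h => dimP_le p s hs fun N₀ hN₀ => ?_⟩
  obtain ⟨C, hC⟩ := h N₀ hN₀.2
  refine ⟨C, fun A hA hAN hm e he hx => ?_⟩
  have := hA.1
  have h1 := hC (A.subgroupOf N₀) inferInstance hm e he fun x => hx x x.2
  exact h1

end Pool.Agent.Results.MP_fad14a_al.ModPDimension
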