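import Pool.Agent.PPQ.Main

set_option autoImplicit false

namespace Pool.Agent.Results.MP_fad14a_al.NilpotentQuotients

open LDM

/-- For every `ε > 0` there is a residually finite group generated by two elements, such that the
nilpotent quotients of every subgroup of finite index are finite of bounded order and the derived
subgroups of every subgroup of finite index have finite index, but
`dim H_1(A; F_q) ≥ (1 - ε) [Γ : A]` for all normal subgroups `A` of finite index inside some normal
subgroup of finite index, with a prime `q` depending on `A`. -/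
theorem result (ε : ℝ) (hε : 0 < ε) : ∃ (Γ : Type) (_ : Group Γ),
    (∃ a b : Γ, Subgroup.closure {a, b} = ⊤) ∧
    Group.ResiduallyFinite Γ ∧
    (∀ B : Subgroup Γ, B.FiniteIndex →
      (∃ C : ℕ, ∀ A : Subgroup B, ∀ _ : A.Normal, Group.IsNilpotent (B ⧸ A) →
        A.FiniteIndex ∧ A.index ≤ C) ∧
      ∀ d : ℕ, (derivedSeries B d).FiniteIndex) ∧
    (∀ p : ℕ, p.Prime → DimP p Γ = 0) ∧
    (∃ N₁ : Subgroup Γ, NS N₁ ∧ ∀ A : Subgroup Γ, NS A → A ≤ N₁ →
      ∃ q k : ℕ, q.Prime ∧ (1 - ε) * A.index ≤ k ∧ (k : ℕ∞) ≤ deltaP q A ∧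
        deltaP q A ≤ delta A) ∧
    Dim Γ = ⊤ :=
  PPQ.main ε hε

end Pool.Agent.Results.MP_fad14a_al.NilpotentQuotients
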